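import Mathlib

/-!
A skew-symmetric matrix game has value zero, and a pair lemma for skew-symmetric matrices with
rows that are monotone for a partial order.
-/

set_option autoImplicit false

namespace Pool.Agent.Helper34.Thom

open Finset

/-- A skew-symmetric matrix game has an optimal strategy of value zero. -/
theorem exists_equilibrium {ι : Type*} [Fintype ι] [Nonempty ι] (K : ι → ι → ℝ)
    (hK : ∀ i j, K i j = - K j i) :
    ∃ p : ι → ℝ, (∀ i, 0 ≤ p i) ∧ ∑ i, p i = 1 ∧ ∀ j, 0 ≤ ∑ i, p i * K i j := by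
  classical
  set L : (ι → ℝ) → (ι → ℝ) := fun p j => ∑ i, p i * K i j with hL
  have hLlin : IsLinearMap ℝ L := by
    constructor
    · intro p q
      funext j
      simp only [hL, Pi.add_apply, add_mul, Finset.sum_add_distrib]
    · intro c p
      funext j
      simp only [hL, Pi.smul_apply, smul_eq_mul, Finset.mul_sum, mul_assoc]
  set C : Set (ι → ℝ) := L '' (stdSimplex ℝ ι) with hC
  have hLcont : Continuous L := by
    refine continuous_pi fun j => ?_
    exact continuous_finsetSum _ fun i _ => (continuous_apply i).mul continuous_const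
  have hcomp : IsCompact C := (isCompact_stdSimplex ℝ ι).image hLcont
  have hconv : Convex ℝ C := (convex_stdSimplex ℝ ι).is_linear_image hLlin
  by_contra hcon
  have hdisj : Disjoint C (Set.Ici (0 : ι → ℝ)) := by
    rw [Set.disjoint_left]
    rintro _ ⟨p, hp, rfl⟩ h0
    apply hcon
    refine ⟨p, fun i => hp.1 i, hp.2, fun j => ?_⟩
    exact h0 j
  obtain ⟨f, u, v, h1, h2, h3⟩ := geometric_hahn_banach_compact_closed hconv hcomp
    (convex_Ici (𝕜 := ℝ) (0 : ι → ℝ)) isClosed_Ici hdisj
  set α : ι → ℝ := fun i => f (Pi.single i 1) with hα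
  have hf : ∀ y : ι → ℝ, f y = ∑ i, α i * y i := by
    intro y
    have hy : y = ∑ i, y i • (Pi.single i (1 : ℝ) : ι → ℝ) := by
      funext j
      rw [Finset.sum_apply]
      simp [Pi.single_apply]
    conv_lhs => rw [hy]
    rw [map_sum]
    refine Finset.sum_congr rfl fun i _ => ?_
    rw [map_smul, smul_eq_mul, mul_comm]
  have hv : v < 0 := by
    have := h3 0 (Set.mem_Ici.2 le_rfl)
    rwa [map_zero] at this
  have hα0 : ∀ i, 0 ≤ α i := by
    intro i
    by_contra hneg
    push Not at hneg
    have hmem : (fun j => if j = i then v / α i else 0 : ι → ℝ) ∈ Set.Ici (0 : ι → ℝ) := by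
      rw [Set.mem_Ici]
      intro j
      by_cases hj : j = i
      · simp only [hj, if_true, Pi.zero_apply]
        exact div_nonneg_of_nonpos hv.le hneg.le
      · simp only [hj, if_false, Pi.zero_apply]
        exact le_rfl
    have h4 := h3 _ hmem
    rw [hf] at h4
    have h5 : ∑ j, α j * (if j = i then v / α i else 0) = v := by
      rw [Finset.sum_eq_single i]
      · rw [if_pos rfl]
        exact mul_div_cancel₀ v hneg.ne
      · intro j _ hj
        simp [hj]
      · intro h
        exact absurd (Finset.mem_univ i) h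
    rw [h5] at h4
    exact lt_irrefl _ h4
  set s : ℝ := ∑ i, α i with hs
  have hs0 : 0 < s := by
    rcases (Finset.sum_nonneg fun i (_ : i ∈ Finset.univ) => hα0 i).lt_or_eq with h | h
    · exact h
    · exfalso
      have hz : ∀ i, α i = 0 := fun i =>
        (Finset.sum_eq_zero_iff_of_nonneg fun i _ => hα0 i).1 h.symm i (Finset.mem_univ i)
      obtain ⟨i₀⟩ := ‹Nonempty ι›
      have h4 := h3 0 (Set.mem_Ici.2 le_rfl)
      have h5 := h1 (L (Pi.single i₀ 1)) ⟨_, single_mem_stdSimplex ℝ i₀, rfl⟩
      rw [hf] at h4 h5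
      simp only [hz, zero_mul, Finset.sum_const_zero] at h4 h5
      linarith
  have hp : (fun i => α i / s) ∈ stdSimplex ℝ ι := by
    refine ⟨fun i => div_nonneg (hα0 i) hs0.le, ?_⟩
    rw [← Finset.sum_div]
    exact div_self hs0.ne'
  have h6 := h1 _ ⟨_, hp, rfl⟩
  rw [hf] at h6
  have h7 : ∑ j, α j * L (fun i => α i / s) j = 0 := by
    have h8 : ∑ j, α j * L (fun i => α i / s) j = (∑ j, ∑ i, α j * α i * K i j) / s := by
      rw [Finset.sum_div]
      refine Finset.sum_congr rfl fun j _ => ?_
      simp only [hL]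
      rw [Finset.mul_sum, Finset.sum_div]
      refine Finset.sum_congr rfl fun i _ => ?_
      ring
    have h9 : (∑ j, ∑ i, α j * α i * K i j) = 0 := by
      have h10 : (∑ j, ∑ i, α j * α i * K i j) = - (∑ j, ∑ i, α j * α i * K i j) := by
        conv_lhs => rw [Finset.sum_comm]
        rw [← Finset.sum_neg_distrib]
        refine Finset.sum_congr rfl fun j _ => ?_
        rw [← Finset.sum_neg_distrib]
        refine Finset.sum_congr rfl fun i _ => ?_
        rw [hK j i]
        ring
      linarith
    rw [h8, h9, zero_div]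
  rw [h7] at h6
  linarith

section Pair

variable {V : Type*} {R : V → V → Prop} {M : V → V → ℝ}

/-- An element of `A` lies below some element without upper bounds in `A`. -/
theorem exists_top (htrans : ∀ x y z, R x y → R y z → R x z) (hirr : ∀ x, ¬ R x x)
    (A : Finset V) {x : V} (hx : x ∈ A) :
    ∃ u ∈ A, (u = x ∨ R u x) ∧ ∀ z ∈ A, ¬ R z u := by
  classical
  obtain ⟨u, hu, hmax⟩ := Finset.exists_max_image (A.filter fun u => u = x ∨ R u x)
    (fun u => (A.filter fun z => R u z).card) ⟨x, by simp [hx]⟩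
  rw [Finset.mem_filter] at hu
  refine ⟨u, hu.1, hu.2, fun z hz hzu => ?_⟩
  have hzx : R z x := by
    rcases hu.2 with h | h
    · rwa [h] at hzu
    · exact htrans _ _ _ hzu h
  have h1 := hmax z (by rw [Finset.mem_filter]; exact ⟨hz, Or.inr hzx⟩)
  have h2 : (A.filter fun w => R u w).card < (A.filter fun w => R z w).card := by
    apply Finset.card_lt_card
    rw [Finset.ssubset_iff_of_subset]
    · refine ⟨u, ?_, ?_⟩
      · rw [Finset.mem_filter]
        exact ⟨hu.1, hzu⟩
      · rw [Finset.mem_filter]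
        rintro ⟨-, h⟩
        exact hirr _ h
    · intro w hw
      rw [Finset.mem_filter] at hw ⊢
      exact ⟨hw.1, htrans _ _ _ hzu hw.2⟩
  omega

/-- Averaging argument: the value at `z` exceeds the mean of the values above `z` by the mass
above `z`. -/
theorem mass_above {ι : Type*} [Fintype ι] (P : ι → ℝ) (hP : ∀ i, 0 ≤ P i)
    (f : ι → V) (hskew : ∀ x y, M x y = - M y x)
    (hmono : ∀ x y z, R x y → M y z ≤ M x z) (hone : ∀ x y, R x y → 1 ≤ M x y)
    (z : V) (κ : ℝ) (T : ι → Prop) [DecidablePred T] (hT : ∀ i, T i → R (f i) z)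
    (hκ : ∀ i, T i → 0 ≤ ∑ j, P j * M (f j) (f i) + κ)
    (hpos : 0 < ∑ i, P i * (if T i then 1 else 0)) :
    ∑ i, P i * (if T i then 1 else 0) ≤ ∑ j, P j * M (f j) z + κ := by
  classical
  set m : ℝ := ∑ i, P i * (if T i then 1 else 0) with hm
  set a : ℝ := ∑ j, P j * M (f j) z with ha
  set t : ι → ℝ := fun i => P i * (if T i then 1 else 0) with ht
  have ht0 : ∀ i, 0 ≤ t i := fun i => mul_nonneg (hP i) (by split_ifs <;> norm_num)
  -- the skew term
  have hsk : ∑ i, ∑ j, t i * t j * M (f j) (f i) = 0 := by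
    have h1 : ∑ i, ∑ j, t i * t j * M (f j) (f i) = - ∑ i, ∑ j, t i * t j * M (f j) (f i) := by
      conv_lhs => rw [Finset.sum_comm]
      rw [← Finset.sum_neg_distrib]
      refine Finset.sum_congr rfl fun i _ => ?_
      rw [← Finset.sum_neg_distrib]
      refine Finset.sum_congr rfl fun j _ => ?_
      rw [hskew (f i) (f j)]
      ring
    linarith
  have hmono' : ∀ i, T i → ∀ x, M x (f i) ≤ M x z := by
    intro i hi x
    have := hmono (f i) z x (hT i hi)
    rw [hskew x (f i), hskew x z]
    linarith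
  have h2 : m * m ≤ m * (a + κ) := by
    calc m * m = ∑ i, ∑ j, t i * t j * 1 := by
          rw [hm, Finset.sum_mul_sum]
          simp only [ht, mul_one]
      _ ≤ ∑ i, ∑ j, t i * t j * M (f j) z := by
          refine Finset.sum_le_sum fun i _ => Finset.sum_le_sum fun j _ => ?_
          by_cases hj : T j
          · exact mul_le_mul_of_nonneg_left (hone _ _ (hT j hj)) (mul_nonneg (ht0 i) (ht0 j))
          · simp [ht, hj]
      _ = ∑ i, ∑ j, t i * (t j * (M (f j) z - M (f j) (f i))) := by
          rw [← sub_zero (∑ i, ∑ j, t i * t j * M (f j) z), ← hsk, ← Finset.sum_sub_distrib]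
          refine Finset.sum_congr rfl fun i _ => ?_
          rw [← Finset.sum_sub_distrib]
          refine Finset.sum_congr rfl fun j _ => ?_
          ring
      _ ≤ ∑ i, ∑ j, t i * (P j * (M (f j) z - M (f j) (f i))) := by
          refine Finset.sum_le_sum fun i _ => Finset.sum_le_sum fun j _ => ?_
          by_cases hi : T i
          · refine mul_le_mul_of_nonneg_left ?_ (ht0 i)
            have h3 : 0 ≤ M (f j) z - M (f j) (f i) := sub_nonneg.2 (hmono' i hi _)
            refine mul_le_mul_of_nonneg_right ?_ h3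
            simp only [ht]
            split_ifs
            · rw [mul_one]
            · rw [mul_zero]
              exact hP j
          · simp [ht, hi]
      _ = ∑ i, t i * (a - ∑ j, P j * M (f j) (f i)) := by
          refine Finset.sum_congr rfl fun i _ => ?_
          rw [← Finset.mul_sum]
          congr 1
          rw [ha, ← Finset.sum_sub_distrib]
          refine Finset.sum_congr rfl fun j _ => ?_
          ring
      _ ≤ ∑ i, t i * (a + κ) := by
          refine Finset.sum_le_sum fun i _ => ?_
          by_cases hi : T i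
          · refine mul_le_mul_of_nonneg_left ?_ (ht0 i)
            linarith [hκ i hi]
          · simp [ht, hi]
      _ = m * (a + κ) := by
          rw [← Finset.sum_mul]
  exact le_of_mul_le_mul_left h2 hpos

open Classical in
/-- **Pair lemma.** If `R` is a partial order for which the rows of the skew-symmetric matrix `M`
are monotone, then in every finite set `A` that contains a pair of `R` there is such a pair
`(u, v)` for which the difference of the row sums is at least the number of relations of `R`
inside `A` that involve `u`, plus the number of those that involve `v`. -/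
theorem exists_pair (hskew : ∀ x y, M x y = - M y x)
    (hmono : ∀ x y z, R x y → M y z ≤ M x z) (hone : ∀ x y, R x y → 1 ≤ M x y)
    (htrans : ∀ x y z, R x y → R y z → R x z) (A : Finset V)
    (hA : ∃ x ∈ A, ∃ y ∈ A, R x y) :
    ∃ u ∈ A, ∃ v ∈ A, R u v ∧
      ∑ z ∈ A, ((if R u z then 1 else 0) + (if R z u then 1 else 0) +
        (if R v z then 1 else 0) + (if R z v then 1 else 0) : ℝ) ≤ ∑ z ∈ A, (M u z - M v z) := by
  have hdiag : ∀ x, M x x = 0 := fun x => by
    have := hskew x x
    linarith
  have hirr : ∀ x, ¬ R x x := fun x h => by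
    have h1 := hone x x h
    rw [hdiag] at h1
    linarith
  have hskew' : ∀ x y, M y x = - M x y := fun x y => hskew y x
  have hmono' : ∀ x y z, R y x → M z y ≤ M z x := fun x y z h => by
    have := hmono y x z h
    rw [hskew z y, hskew z x]
    linarith
  let ι : Type _ := {i : V × V // i.1 ∈ A ∧ i.2 ∈ A ∧ R i.1 i.2 ∧ (∀ z ∈ A, ¬ R z i.1) ∧
    (∀ z ∈ A, ¬ R i.2 z)}
  have hfin : Finite ι := by
    apply Finite.of_injective (fun i : ι => ((⟨i.1.1, i.2.1⟩, ⟨i.1.2, i.2.2.1⟩) : A × A))
    intro i j hij
    simp only [Prod.mk.injEq, Subtype.mk.injEq] at hij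
    exact Subtype.ext (Prod.ext hij.1 hij.2)
  have _ : Fintype ι := Fintype.ofFinite ι
  -- every pair of `R` in `A` can be enlarged to an index
  have hext : ∀ x ∈ A, ∀ y ∈ A, R x y → ∃ i : ι, (i.1.1 = x ∨ R i.1.1 x) ∧
      (i.1.2 = y ∨ R y i.1.2) := by
    intro x hx y hy hxy
    obtain ⟨u, hu, hux, hu'⟩ := exists_top htrans hirr A hx
    obtain ⟨v, hv, hvy, hv'⟩ := exists_top (R := fun a b => R b a)
      (fun a b c h1 h2 => htrans c b a h2 h1) hirr A hy
    have h1 : R u y := by
      rcases hux with h | h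
      · rwa [h]
      · exact htrans _ _ _ h hxy
    have h2 : R u v := by
      rcases hvy with h | h
      · rwa [h]
      · exact htrans _ _ _ h1 h
    exact ⟨⟨(u, v), hu, hv, h2, hu', hv'⟩, hux, hvy⟩
  obtain ⟨x₀, hx₀, y₀, hy₀, hxy₀⟩ := hA
  have _ : Nonempty ι := by
    obtain ⟨i, -⟩ := hext x₀ hx₀ y₀ hy₀ hxy₀
    exact ⟨i⟩
  obtain ⟨P, hP0, hP1, hPK⟩ := exists_equilibrium
    (fun i j : ι => M i.1.1 j.1.1 + M j.1.2 i.1.2) (fun i j => by
      rw [hskew i.1.1 j.1.1, hskew j.1.2 i.1.2]
      ring)
  set a : V → ℝ := fun x => ∑ i : ι, P i * M i.1.1 x with ha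
  set c : V → ℝ := fun y => ∑ i : ι, P i * M y i.1.2 with hc
  have hac : ∀ j : ι, 0 ≤ a j.1.1 + c j.1.2 := by
    intro j
    have h := hPK j
    simp only [mul_add, Finset.sum_add_distrib] at h
    exact h
  have ha_mono : ∀ x y, R x y → a x ≤ a y := by
    intro x y hxy
    refine Finset.sum_le_sum fun i _ => mul_le_mul_of_nonneg_left ?_ (hP0 i)
    exact hmono' y x _ hxy
  have hc_mono : ∀ x y, R x y → c y ≤ c x := by
    intro x y hxy
    refine Finset.sum_le_sum fun i _ => mul_le_mul_of_nonneg_left ?_ (hP0 i)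
    exact hmono x y _ hxy
  have hpair : ∀ x ∈ A, ∀ y ∈ A, R x y → 0 ≤ a x + c y := by
    intro x hx y hy hxy
    obtain ⟨j, h1, h2⟩ := hext x hx y hy hxy
    have h3 : a j.1.1 ≤ a x := by
      rcases h1 with h | h
      · rw [h]
      · exact ha_mono _ _ h
    have h4 : c j.1.2 ≤ c y := by
      rcases h2 with h | h
      · rw [h]
      · exact hc_mono _ _ h
    linarith [hac j]
  -- the main inequality at a vertex `z`
  have hz : ∀ z ∈ A, ∑ i : ι, P i * (if R i.1.1 z then 1 else 0) +
      ∑ i : ι, P i * (if R z i.1.2 then 1 else 0) ≤ a z + c z := by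
    intro z hzA
    set m₁ : ℝ := ∑ i : ι, P i * (if R i.1.1 z then 1 else 0) with hm₁
    set m₂ : ℝ := ∑ i : ι, P i * (if R z i.1.2 then 1 else 0) with hm₂
    have hm₁0 : 0 ≤ m₁ := Finset.sum_nonneg fun i _ => mul_nonneg (hP0 i) (by split_ifs <;> norm_num)
    have hm₂0 : 0 ≤ m₂ := Finset.sum_nonneg fun i _ => mul_nonneg (hP0 i) (by split_ifs <;> norm_num)
    -- the two averaging statements
    have hup : ∀ κ : ℝ, (∀ u ∈ A, R u z → 0 ≤ a u + κ) → 0 < m₁ → m₁ ≤ a z + κ := by
      intro κ hκ hpos
      exact mass_above (R := R) (M := M) P hP0 (fun i : ι => i.1.1) hskew hmono hone z κ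
        (fun i : ι => R i.1.1 z) (fun i h => h) (fun i h => hκ _ i.2.1 h) hpos
    have hdown : ∀ κ : ℝ, (∀ v ∈ A, R z v → 0 ≤ c v + κ) → 0 < m₂ → m₂ ≤ c z + κ := by
      intro κ hκ hpos
      exact mass_above (R := fun x y => R y x) (M := fun x y => M y x) P hP0
        (fun i : ι => i.1.2) hskew' (fun x y w h => hmono' x y w h) (fun x y h => hone y x h) z κ
        (fun i : ι => R z i.1.2) (fun i h => h) (fun i h => hκ _ i.2.2.1 h) hpos
    rcases hm₁0.lt_or_eq with h1 | h1
    · rcases hm₂0.lt_or_eq with h2 | h2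
      · have h3 : ∀ v ∈ A, R z v → m₁ ≤ a z + c v := fun v hv hzv =>
          hup (c v) (fun u hu huz => hpair u hu v hv (htrans _ _ _ huz hzv)) h1
        have h4 := hdown (a z - m₁) (fun v hv hzv => by linarith [h3 v hv hzv]) h2
        linarith
      · have h3 := hup (c z) (fun u hu huz => hpair u hu z hzA huz) h1
        rw [← h2]
        linarith
    · rcases hm₂0.lt_or_eq with h2 | h2
      · have h3 := hdown (a z) (fun v hv hzv => by linarith [hpair z hzA v hv hzv]) h2
        rw [← h1]
        linarith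
      · rw [← h1, ← h2]
        have h3 : a z + c z = ∑ i : ι, P i * (M i.1.1 z - M i.1.2 z) := by
          simp only [ha, hc]
          rw [← Finset.sum_add_distrib]
          refine Finset.sum_congr rfl fun i _ => ?_
          rw [hskew z i.1.2]
          ring
        rw [h3, add_zero]
        refine Finset.sum_nonneg fun i _ => mul_nonneg (hP0 i) ?_
        exact sub_nonneg.2 (hmono _ _ _ i.2.2.2.1)
  -- average over the pairs
  by_contra hcon
  push Not at hcon
  have hneg : ∀ i : ι, ∑ z ∈ A, (M i.1.1 z - M i.1.2 z) <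
      ∑ z ∈ A, ((if R i.1.1 z then 1 else 0) + (if R z i.1.2 then 1 else 0) : ℝ) := by
    intro i
    have h := hcon i.1.1 i.2.1 i.1.2 i.2.2.1 i.2.2.2.1
    refine lt_of_lt_of_eq h (Finset.sum_congr rfl fun z hzA => ?_)
    rw [if_neg (i.2.2.2.2.1 z hzA), if_neg (i.2.2.2.2.2 z hzA)]
    ring
  have h1 : ∑ i : ι, P i * ∑ z ∈ A, (M i.1.1 z - M i.1.2 z) = ∑ z ∈ A, (a z + c z) := by
    simp only [Finset.mul_sum]
    rw [Finset.sum_comm]
    refine Finset.sum_congr rfl fun z _ => ?_
    simp only [ha, hc]
    rw [← Finset.sum_add_distrib]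
    refine Finset.sum_congr rfl fun i _ => ?_
    rw [hskew z i.1.2]
    ring
  have h2 : ∑ i : ι, P i * ∑ z ∈ A, ((if R i.1.1 z then 1 else 0) +
      (if R z i.1.2 then 1 else 0) : ℝ) ≤ ∑ z ∈ A, (a z + c z) := by
    simp only [Finset.mul_sum]
    rw [Finset.sum_comm]
    refine Finset.sum_le_sum fun z hzA => ?_
    refine le_trans (le_of_eq ?_) (hz z hzA)
    rw [← Finset.sum_add_distrib]
    refine Finset.sum_congr rfl fun i _ => ?_
    ring
  rw [← h1] at h2
  have h3 : ∑ i : ι, P i * ∑ z ∈ A, (M i.1.1 z - M i.1.2 z) <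
      ∑ i : ι, P i * ∑ z ∈ A, ((if R i.1.1 z then 1 else 0) +
      (if R z i.1.2 then 1 else 0) : ℝ) := by
    obtain ⟨i₀, hi₀⟩ : ∃ i, 0 < P i := by
      by_contra hno
      push Not at hno
      have : ∑ i, P i ≤ 0 := Finset.sum_nonpos fun i _ => hno i
      linarith
    refine Finset.sum_lt_sum (fun i _ => mul_le_mul_of_nonneg_left (hneg i).le (hP0 i))
      ⟨i₀, Finset.mem_univ _, mul_lt_mul_of_pos_left (hneg i₀) hi₀⟩
  exact absurd h2 (not_le.2 h3)

open Classical in
/-- **Counting relations.** `R` is a partial order for which the rows of the integral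
skew-symmetric matrix `M` are monotone, with `M x y ≥ 1` on `R`. If a function `b` differs on each
pair of `R` in `A` by at least the difference of the row sums over `A`, then the number of pairs
of `R` in `A` is at most the sum over `A` of `|b|`, diminished by one where `b` is positive. -/
theorem pairs_le {M : V → V → ℤ} (hskew : ∀ x y, M x y = - M y x)
    (hmono : ∀ x y z, R x y → M y z ≤ M x z) (hone : ∀ x y, R x y → 1 ≤ M x y)
    (htrans : ∀ x y z, R x y → R y z → R x z) (b : V → ℤ) (A : Finset V) :
    (∀ x ∈ A, ∀ y ∈ A, R x y → ∑ z ∈ A, (M x z - M y z) ≤ b x - b y) →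
    ∑ x ∈ A, ∑ y ∈ A, (if R x y then 1 else 0 : ℤ) ≤
      ∑ x ∈ A, (|b x| - if 0 < b x then 1 else 0) := by
  have hdiag : ∀ x, M x x = 0 := fun x => by
    have := hskew x x
    omega
  have hirr : ∀ x, ¬ R x x := fun x h => by
    have h1 := hone x x h
    rw [hdiag] at h1
    omega
  have hphi0 : ∀ t : ℤ, 0 ≤ |t| - if 0 < t then 1 else 0 := by
    intro t
    split_ifs with h
    · have := abs_of_pos h
      omega
    · have := abs_nonneg t
      omega
  have hphi1 : ∀ t : ℤ, t - 1 ≤ |t| - if 0 < t then 1 else 0 := by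
    intro t
    have := le_abs_self t
    split_ifs with h <;> omega
  have hphi2 : ∀ t : ℤ, - t ≤ |t| - if 0 < t then 1 else 0 := by
    intro t
    split_ifs with h
    · have := abs_of_pos h
      omega
    · have := neg_le_abs t
      omega
  induction A using Finset.strongInductionOn with
  | _ A ih =>
    intro hb
    by_cases hA : ∃ x ∈ A, ∃ y ∈ A, R x y
    · obtain ⟨u, hu, v, hv, huv, hle⟩ := exists_pair (M := fun x y => (M x y : ℝ))
        (fun x y => by rw [hskew x y]; push_cast; ring)
        (fun x y z h => by exact_mod_cast hmono x y z h)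
        (fun x y h => by exact_mod_cast hone x y h) htrans A hA
      have hle' : ∑ z ∈ A, ((if R u z then 1 else 0) + (if R z u then 1 else 0) +
          (if R v z then 1 else 0) + (if R z v then 1 else 0) : ℤ) ≤
          ∑ z ∈ A, (M u z - M v z) := by
        have h1 : ((∑ z ∈ A, ((if R u z then 1 else 0) + (if R z u then 1 else 0) +
          (if R v z then 1 else 0) + (if R z v then 1 else 0) : ℤ) : ℤ) : ℝ) ≤
          ((∑ z ∈ A, (M u z - M v z) : ℤ) : ℝ) := by
          push_cast
          exact hle
        exact_mod_cast h1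
      have hne : v ≠ u := by
        rintro rfl
        exact hirr _ huv
      have hvu : ¬ R v u := fun h => hirr _ (htrans _ _ _ huv h)
      set A' : Finset V := (A.erase u).erase v with hA'
      have hvA : v ∈ A.erase u := Finset.mem_erase.2 ⟨hne, hv⟩
      have hsum : ∀ f : V → ℤ, ∑ x ∈ A, f x = f u + (f v + ∑ x ∈ A', f x) := by
        intro f
        rw [← Finset.add_sum_erase A f hu, ← Finset.add_sum_erase (A.erase u) f hvA]
      have hsub : A' ⊆ A := (Finset.erase_subset _ _).trans (Finset.erase_subset _ _)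
      have hss : A' ⊂ A := by
        refine (Finset.ssubset_iff_of_subset hsub).2 ⟨u, hu, ?_⟩
        rw [hA']
        simp
      have hih := ih A' hss (by
        intro x hx y hy hxy
        refine le_trans ?_ (hb x (hsub hx) y (hsub hy) hxy)
        refine Finset.sum_le_sum_of_subset_of_nonneg hsub fun z _ _ => ?_
        exact sub_nonneg.2 (hmono x y z hxy))
      have hbuv := hb u hu v hv huv
      -- the relations that involve `u` or `v`
      have h1 : ∑ x ∈ A', (if R x u then 1 else 0 : ℤ) = ∑ z ∈ A, (if R z u then 1 else 0 : ℤ) := by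
        rw [hsum (fun z => if R z u then 1 else 0)]
        simp [hirr, hvu]
      have h2 : ∑ x ∈ A', (if R x v then 1 else 0 : ℤ) + 1 =
          ∑ z ∈ A, (if R z v then 1 else 0 : ℤ) := by
        rw [hsum (fun z => if R z v then 1 else 0)]
        simp [hirr, huv]
        ring
      have h3 : ∑ x ∈ A, ∑ y ∈ A, (if R x y then 1 else 0 : ℤ) =
          ∑ y ∈ A, (if R u y then 1 else 0 : ℤ) + (∑ y ∈ A, (if R v y then 1 else 0 : ℤ) +
          (∑ x ∈ A', (if R x u then 1 else 0 : ℤ) + (∑ x ∈ A', (if R x v then 1 else 0 : ℤ) +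
          ∑ x ∈ A', ∑ y ∈ A', (if R x y then 1 else 0 : ℤ)))) := by
        rw [hsum (fun x => ∑ y ∈ A, (if R x y then 1 else 0 : ℤ))]
        congr 2
        rw [← Finset.sum_add_distrib, ← Finset.sum_add_distrib]
        refine Finset.sum_congr rfl fun x _ => ?_
        rw [hsum (fun y => if R x y then 1 else 0)]
      rw [hsum (fun x => |b x| - if 0 < b x then 1 else 0), h3]
      simp only [Finset.sum_add_distrib] at hle'
      have h4 := hphi1 (b u)
      have h5 := hphi2 (b v)
      linarith
    · have h0 : ∑ x ∈ A, ∑ y ∈ A, (if R x y then 1 else 0 : ℤ) = 0 := by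
        refine Finset.sum_eq_zero fun x hx => Finset.sum_eq_zero fun y hy => ?_
        rw [if_neg]
        intro h
        exact hA ⟨x, hx, y, hy, h⟩
      rw [h0]
      exact Finset.sum_nonneg fun x _ => hphi0 _

end Pair

end Pool.Agent.Helper34.Thom
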